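import Pool.Agent.T2H15.AC.Chk

/-!
# An abelian-cube-free fixed point of a ternary morphism with a contracting eigenvalue

The answer to Q1 is yes. The matrix of the morphism `img` of the three letter alphabet (all images have
length `155`) is invertible, with the eigenvalues `155`, `(47 + √2037) / 2 = 46.06…` and
`(47 - √2037) / 2 = 0.93…`, and its fixed point starting with `1` has no abelian cube.

Proof: the prefixes of the images, weighted with `8` and `13` for the letters `1` and `2`, modulo `43`, give 296
elements of a group of order `155 · 43`, and there is no nontrivial progression of four terms among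
these. So the four places at the ends of the blocks of an abelian cube are congruent modulo `155`, and
the cube comes from a smaller one.
-/

set_option autoImplicit false

namespace Pool.Agent.Results.MP_afd3e6_co.ContractingMorphism

open Pool.Agent.T2H15.AC Polynomial

/-! ### Words and morphisms -/

/-- The image of a finite word under the morphism with the images `h x` of the letters. -/
def image {A : Type} (h : A → List A) (u : List A) : List A := u.flatMap h

/-- The matrix of a morphism: the entry in the row `x` and the column `y` is the number of the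
occurrences of the letter `x` in the image of the letter `y`. -/
def morphismMatrix {A : Type} [DecidableEq A] (h : A → List A) : Matrix A A ℤ :=
  Matrix.of fun x y => ((h y).count x : ℤ)

/-- The prefix of length `n` of an infinite word. -/
def pre {A : Type} (w : ℕ → A) (n : ℕ) : List A := (List.range n).map w

/-- The factor of length `n` starting at the place `i` of an infinite word. -/
def factor {A : Type} (w : ℕ → A) (i n : ℕ) : List A := (List.range n).map fun k => w (i + k)

/-- `h(w) = w`: the images of the prefixes of `w` are prefixes of `w`, of unbounded length. -/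
def IsFixedPoint {A : Type} (h : A → List A) (w : ℕ → A) : Prop :=
  (∀ n, ∃ m, image h (pre w n) = pre w m) ∧ ∀ N, ∃ n, N ≤ (image h (pre w n)).length

/-- An abelian cube: `u v t` with nonempty words `u`, `v`, `t` in which every letter has the same
number of occurrences. -/
def IsAbelianCube {A : Type} [DecidableEq A] (c : List A) : Prop :=
  ∃ u v t : List A, c = u ++ v ++ t ∧ u ≠ [] ∧ v ≠ [] ∧ t ≠ [] ∧
    ∀ x, u.count x = v.count x ∧ v.count x = t.count x

/-- No factor of the infinite word is an abelian cube. -/
def AbelianCubeFree {A : Type} [DecidableEq A] (w : ℕ → A) : Prop :=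
  ∀ i n, ¬ IsAbelianCube (factor w i n)

open scoped Classical in
/-- The number of the eigenvalues of modulus smaller than one, with algebraic multiplicity. -/
noncomputable def contracting (M : Matrix (Fin 3) (Fin 3) ℤ) : ℕ :=
  ((M.map (Int.cast : ℤ → ℂ)).charpoly.roots.filter (fun z => ‖z‖ < 1)).card

/-! ### The eigenvalues -/

theorem charpoly_eq (L t D : ℤ) (M : Matrix (Fin 3) (Fin 3) ℤ) (r1 r2 : ℂ)
    (htr : M 0 0 + M 1 1 + M 2 2 = L + t)
    (hmin : M 0 0 * M 1 1 - M 0 1 * M 1 0 + (M 0 0 * M 2 2 - M 0 2 * M 2 0) +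
      (M 1 1 * M 2 2 - M 1 2 * M 2 1) = L * t + D)
    (hdet : M.det = L * D) (h1 : r1 + r2 = t) (h2 : r1 * r2 = D) :
    (M.map (Int.cast : ℤ → ℂ)).charpoly = (X - C (L : ℂ)) * (X - C r1) * (X - C r2) := by
  have hdet' := hdet
  rw [Matrix.det_fin_three] at hdet'
  have e1 : (M 0 0 : ℂ) + M 1 1 + M 2 2 = L + t := by exact_mod_cast htr
  have e2 : (M 0 0 : ℂ) * M 1 1 - M 0 1 * M 1 0 + (M 0 0 * M 2 2 - M 0 2 * M 2 0) +
      (M 1 1 * M 2 2 - M 1 2 * M 2 1) = L * t + D := by exact_mod_cast hmin
  have e3 : (M 0 0 : ℂ) * M 1 1 * M 2 2 - M 0 0 * M 1 2 * M 2 1 - M 0 1 * M 1 0 * M 2 2 +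
      M 0 1 * M 1 2 * M 2 0 + M 0 2 * M 1 0 * M 2 1 - M 0 2 * M 1 1 * M 2 0 = L * D := by
    exact_mod_cast hdet'
  have c1 : C (M 0 0 : ℂ) + C (M 1 1 : ℂ) + C (M 2 2 : ℂ) = C (L : ℂ) + (C r1 + C r2) := by
    rw [← C_add, ← C_add, ← C_add, ← C_add, e1, h1]
  have c2 : C (M 0 0 : ℂ) * C (M 1 1 : ℂ) - C (M 0 1 : ℂ) * C (M 1 0 : ℂ) +
      (C (M 0 0 : ℂ) * C (M 2 2 : ℂ) - C (M 0 2 : ℂ) * C (M 2 0 : ℂ)) +
      (C (M 1 1 : ℂ) * C (M 2 2 : ℂ) - C (M 1 2 : ℂ) * C (M 2 1 : ℂ)) =
      C (L : ℂ) * (C r1 + C r2) + C r1 * C r2 := by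
    simp only [← C_mul, ← C_sub, ← C_add]
    rw [e2, h1, h2]
  have c3 : C (M 0 0 : ℂ) * C (M 1 1 : ℂ) * C (M 2 2 : ℂ) -
      C (M 0 0 : ℂ) * C (M 1 2 : ℂ) * C (M 2 1 : ℂ) -
      C (M 0 1 : ℂ) * C (M 1 0 : ℂ) * C (M 2 2 : ℂ) +
      C (M 0 1 : ℂ) * C (M 1 2 : ℂ) * C (M 2 0 : ℂ) +
      C (M 0 2 : ℂ) * C (M 1 0 : ℂ) * C (M 2 1 : ℂ) -
      C (M 0 2 : ℂ) * C (M 1 1 : ℂ) * C (M 2 0 : ℂ) = C (L : ℂ) * (C r1 * C r2) := by
    simp only [← C_mul, ← C_sub, ← C_add]
    rw [e3, h2]
  unfold Matrix.charpoly
  rw [Matrix.det_fin_three]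
  simp only [Matrix.charmatrix_apply, Matrix.map_apply, Matrix.diagonal_apply_eq, ne_eq,
    Fin.reduceEq, not_false_eq_true, Matrix.diagonal_apply_ne]
  linear_combination (-X ^ 2) * c1 + X * c2 - c3

theorem roots_eq (L r1 r2 : ℂ) (p : ℂ[X]) (hp : p = (X - C L) * (X - C r1) * (X - C r2)) :
    p.roots = {L} + {r1} + {r2} := by
  rw [hp, roots_mul, roots_mul, roots_X_sub_C, roots_X_sub_C, roots_X_sub_C]
  · exact mul_ne_zero (X_sub_C_ne_zero _) (X_sub_C_ne_zero _)
  · exact mul_ne_zero (mul_ne_zero (X_sub_C_ne_zero _) (X_sub_C_ne_zero _)) (X_sub_C_ne_zero _)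

theorem mat_apply : ∀ x y : Fin 3, morphismMatrix img x y =
    !![84, 69, 46; 43, 39, 30; 28, 47, 79] x y := by
  intro x y
  have h := img_count y
  unfold morphismMatrix
  rw [Matrix.of_apply]
  fin_cases x
  · change ((img y).count 0 : ℤ) = _
    rw [h.1]
    fin_cases y <;> rfl
  · change ((img y).count 1 : ℤ) = _
    rw [h.2.1]
    fin_cases y <;> rfl
  · change ((img y).count 2 : ℤ) = _
    rw [h.2.2]
    fin_cases y <;> rfl

theorem mat_eq : morphismMatrix img = !![84, 69, 46; 43, 39, 30; 28, 47, 79] := by
  ext x y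
  exact mat_apply x y

theorem mat_det : (morphismMatrix img).det = 155 * 43 := by
  rw [mat_eq, Matrix.det_fin_three]
  simp

theorem mat_charpoly : ((morphismMatrix img).map (Int.cast : ℤ → ℂ)).charpoly =
    (X - C ((155 : ℤ) : ℂ)) * (X - C (((47 - √2037) / 2 : ℝ) : ℂ)) *
      (X - C (((47 + √2037) / 2 : ℝ) : ℂ)) := by
  have hs : √2037 * √2037 = 2037 := Real.mul_self_sqrt (by norm_num)
  refine charpoly_eq 155 47 43 _ _ _ ?_ ?_ mat_det ?_ ?_
  · rw [mat_eq]; simp
  · rw [mat_eq]; simp
  · rw [← Complex.ofReal_add, ← Complex.ofReal_intCast]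
    congr 1
    push_cast
    ring
  · rw [← Complex.ofReal_mul, ← Complex.ofReal_intCast]
    congr 1
    push_cast
    linear_combination (-1 / 4 : ℝ) * hs

theorem sqrt_bounds : 45 < √2037 ∧ √2037 < 46 := by
  constructor
  · rw [Real.lt_sqrt (by norm_num)]
    norm_num
  · rw [Real.sqrt_lt' (by norm_num)]
    norm_num

/-! ### The fixed point -/

/-- the fixed point starting with `1` -/
def z : ℕ → ℕ
  | 0 => 1
  | (n + 1) => G (z ((n + 1) / 155)) ((n + 1) % 155)
decreasing_by omega

theorem z_eq (n : ℕ) : z n = G (z (n / 155)) (n % 155) := by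
  cases n with
  | zero =>
    have h : G 1 0 = 1 := by decide +kernel
    simp [z, h]
  | succ n => rw [z]

theorem z_lt (n : ℕ) : z n < 3 := by
  induction n using Nat.strong_induction_on with
  | _ n ih =>
    rcases Nat.eq_zero_or_pos n with h | h
    · subst h
      rw [z]
      norm_num
    · rw [z_eq]
      exact ok.G3 _ (ih _ (by omega)) _ (Nat.mod_lt _ (by norm_num : 0 < 155))

theorem z_fix : Fix M z := by
  refine ⟨z_lt, fun m r hr => ?_⟩
  have hr' : r < 155 := hr
  change z (155 * m + r) = G (z m) r
  rw [z_eq]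
  have h1 : (155 * m + r) / 155 = m := by omega
  have h2 : (155 * m + r) % 155 = r := by omega
  rw [h1, h2]

/-- the fixed point as a word over the three letters -/
def word (n : ℕ) : Fin 3 := ⟨z n, z_lt n⟩

theorem factor_getElem {A : Type} (w : ℕ → A) (i n r : ℕ) (h : r < (factor w i n).length) :
    (factor w i n)[r] = w (i + r) := by
  simp [factor]

theorem img_word (m : ℕ) : img (word m) = factor word (155 * m) 155 := by
  apply List.ext_getElem
  · rw [img_length]
    unfold factor
    rw [List.length_map, List.length_range]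
  · intro r h1 h2
    rw [img_length] at h1
    rw [factor_getElem]
    apply Fin.ext
    have h3 := img_G (word m) ⟨r, h1⟩
    rw [List.getD_eq_getElem _ _ (by rw [img_length]; exact h1)] at h3
    change ((img (word m))[r]).val = z (155 * m + r)
    have h4 : z (155 * m + r) = G (z m) r := z_fix.2 m r h1
    rw [h4]
    exact h3

theorem factor_append {A : Type} (w : ℕ → A) (i a b : ℕ) :
    factor w i (a + b) = factor w i a ++ factor w (i + a) b := by
  unfold factor
  rw [List.range_add, List.map_append, List.map_map]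
  congr 1
  apply List.map_congr_left
  intro k _
  simp only [Function.comp_apply]
  rw [Nat.add_assoc]

theorem pre_eq {A : Type} (w : ℕ → A) (n : ℕ) : pre w n = factor w 0 n := by
  unfold pre factor
  apply List.map_congr_left
  intro k _
  rw [Nat.zero_add]

theorem image_pre (n : ℕ) : image img (pre word n) = pre word (155 * n) := by
  induction n with
  | zero => rfl
  | succ n ih =>
    have h1 : pre word (n + 1) = pre word n ++ [word n] := by
      unfold pre
      rw [List.range_succ, List.map_append]
      rfl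
    have h2 : image img (pre word n ++ [word n]) = image img (pre word n) ++ img (word n) := by
      unfold image
      rw [List.flatMap_append]
      simp
    rw [h1, h2, ih, img_word, pre_eq, pre_eq, Nat.mul_succ, factor_append, Nat.zero_add]

theorem isFixedPoint : IsFixedPoint img word := by
  refine ⟨fun n => ⟨_, image_pre n⟩, fun N => ⟨N, ?_⟩⟩
  rw [image_pre]
  unfold pre
  rw [List.length_map, List.length_range]
  omega

/-! ### Abelian cubes -/

theorem factor_length {A : Type} (w : ℕ → A) (i n : ℕ) : (factor w i n).length = n := by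
  unfold factor
  rw [List.length_map, List.length_range]

theorem count_factor (c : Fin 3) (i n : ℕ) :
    ((factor word i n).count c : ℤ) = N z c (i + n) - N z c i := by
  induction n with
  | zero => simp [factor]
  | succ n ih =>
    rw [factor_append, List.count_append, ← Nat.add_assoc, N_succ]
    push_cast
    rw [ih]
    have h1 : factor word (i + n) 1 = [word (i + n)] := by
      unfold factor
      simp
    rw [h1, List.count_singleton]
    have h2 : (word (i + n) == c) = decide (z (i + n) = c) := by
      by_cases h : z (i + n) = c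
      · have : word (i + n) = c := Fin.ext h
        simp [this, h]
      · have : word (i + n) ≠ c := fun e => h (congrArg Fin.val e)
        simp [this, h]
    rw [h2]
    by_cases h : z (i + n) = c
    · simp [h]; ring
    · simp [h]

theorem abelianCubeFree : AbelianCubeFree word := by
  rintro i n ⟨u, v, t, hc, hu, hv, ht, hx⟩
  have huv : u.length = v.length :=
    (List.perm_iff_count.2 fun x => (hx x).1).length_eq
  have hvt : v.length = t.length :=
    (List.perm_iff_count.2 fun x => (hx x).2).length_eq
  obtain ⟨q, hq⟩ : ∃ q, u.length = q := ⟨_, rfl⟩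
  have hq0 : 0 < q := by
    rw [← hq]
    exact List.length_pos_iff.2 hu
  have hn : n = q + q + q := by
    have h1 := congrArg List.length hc
    rw [factor_length, List.length_append, List.length_append] at h1
    omega
  subst hn
  rw [factor_append, factor_append] at hc
  obtain ⟨h1, h2⟩ := List.append_inj hc (by
    rw [List.length_append, List.length_append, factor_length, factor_length]
    omega)
  obtain ⟨h3, h4⟩ := List.append_inj h1 (by rw [factor_length]; omega)
  refine no_cube M ok z z_fix q i hq0 fun c hcc => ?_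
  obtain ⟨c', hc'⟩ : ∃ c' : Fin 3, (c' : ℕ) = c := by
    rcases hcc with rfl | rfl
    · exact ⟨1, rfl⟩
    · exact ⟨2, rfl⟩
  obtain ⟨e1, e2⟩ := hx c'
  rw [← h3, ← h4] at e1
  rw [← h4, ← h2] at e2
  have e1' : ((factor word i q).count c' : ℤ) = (factor word (i + q) q).count c' := by
    exact_mod_cast e1
  have e2' : ((factor word (i + q) q).count c' : ℤ) = (factor word (i + (q + q)) q).count c' := by
    exact_mod_cast e2
  rw [count_factor, count_factor, hc'] at e1' e2'
  rw [show i + q + q = i + 2 * q by ring] at e1' e2'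
  rw [show i + (q + q) + q = i + 3 * q by ring, show i + (q + q) = i + 2 * q by ring] at e2'
  exact ⟨by linarith, by linarith⟩

/-- **Main theorem.** There is a morphism `h` of a three letter alphabet, with an invertible matrix, of
whose three eigenvalues exactly one has modulus smaller than one, and with an abelian-cube-free
fixed point. The eigenvalues are `155` and `(47 ± √2037) / 2`. -/
theorem result : ∃ (h : Fin 3 → List (Fin 3)) (w : ℕ → Fin 3),
    contracting (morphismMatrix h) = 1 ∧ IsFixedPoint h w ∧ AbelianCubeFree w ∧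
    (morphismMatrix h).det ≠ 0 ∧ (∀ x, (h x).length = 155) ∧
    ((morphismMatrix h).map (Int.cast : ℤ → ℂ)).charpoly.roots =
      {(155 : ℂ)} + {(((47 - √2037) / 2 : ℝ) : ℂ)} + {(((47 + √2037) / 2 : ℝ) : ℂ)} := by
  classical
  have hr := roots_eq _ _ _ _ mat_charpoly
  obtain ⟨b1, b2⟩ := sqrt_bounds
  refine ⟨img, word, ?_, isFixedPoint, abelianCubeFree, ?_, img_length, ?_⟩
  · unfold contracting
    rw [hr, Multiset.filter_add, Multiset.filter_add, Multiset.filter_singleton,
      Multiset.filter_singleton, Multiset.filter_singleton]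
    have n0 : ¬ ‖((155 : ℤ) : ℂ)‖ < 1 := by
      rw [Complex.norm_intCast]
      norm_num
    have n1 : ‖(((47 - √2037) / 2 : ℝ) : ℂ)‖ < 1 := by
      rw [Complex.norm_real, Real.norm_eq_abs, abs_lt]
      constructor <;> linarith
    have n2 : ¬ ‖(((47 + √2037) / 2 : ℝ) : ℂ)‖ < 1 := by
      rw [Complex.norm_real, Real.norm_eq_abs, abs_of_pos (by linarith)]
      linarith
    rw [if_neg n0, if_pos n1, if_neg n2]
    simp
  · rw [mat_det]
    norm_num
  · rw [hr]
    norm_num

end Pool.Agent.Results.MP_afd3e6_co.ContractingMorphism
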